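import Mathlib

namespace Pool.Agent.Results.MP_24384b_lc.Differ

/-- One-way multicounter machine over the alphabet `A` with `k` counters. The moves available
depend on the state, the scanned symbol (`none` = end of the input) and which counters are zero.
A move gives the new state, whether the head advances, and the change of each counter. -/
structure Mach (A : Type) where
  Q : Type
  finQ : Finite Q
  k : ℕ
  q0 : Q
  F : Set Q
  Δ : Q → Option A → (Fin k → Bool) → Set (Q × Bool × (Fin k → SignType))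

variable {A : Type}

/-- state, unread input, counters -/
abbrev Mach.Cfg (M : Mach A) := M.Q × List A × (Fin M.k → ℕ)
abbrev Mach.Act (M : Mach A) := M.Q × Bool × (Fin M.k → SignType)

def Mach.Step (M : Mach A) (C : M.Cfg) (μ : M.Act) (C' : M.Cfg) : Prop :=
  μ ∈ M.Δ C.1 C.2.1.head? (fun i => decide (C.2.2 i = 0)) ∧ C'.1 = μ.1 ∧
    (∀ i, (C'.2.2 i : ℤ) = C.2.2 i + (μ.2.2 i : ℤ)) ∧
    (if μ.2.1 = true then ∃ a, C.2.1 = a :: C'.2.1 else C'.2.1 = C.2.1)

inductive Mach.Run (M : Mach A) : M.Cfg → List M.Act → M.Cfg → Prop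
  | nil (C : M.Cfg) : M.Run C [] C
  | cons {C C' C'' : M.Cfg} {μ : M.Act} {l : List M.Act} :
      M.Step C μ C' → M.Run C' l C'' → M.Run C (μ :: l) C''

def Mach.Reach (M : Mach A) (C : M.Cfg) : Prop := ∃ w l, M.Run (M.q0, w, 0) l C

/-- quasi-realtime -/
def Mach.QR (M : Mach A) : Prop :=
  ∃ d : ℕ, ∀ C l C', M.Reach C → M.Run C l C' → (∀ μ ∈ l, μ.2.1 = false) → l.length ≤ d

/-- at most one move possible in every configuration -/
def Mach.Det (M : Mach A) : Prop :=
  ∀ C μ μ' C₁ C₂, M.Step C μ C₁ → M.Step C μ' C₂ → μ = μ'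

/-- at most one move possible in every reachable configuration -/
def Mach.DetR (M : Mach A) : Prop :=
  ∀ C μ μ' C₁ C₂, M.Reach C → M.Step C μ C₁ → M.Step C μ' C₂ → μ = μ'

/-- the moves do not depend on zero tests -/
def Mach.Blind (M : Mach A) : Prop := ∀ q s z z', M.Δ q s z = M.Δ q s z'

/-- changes of direction of one counter, `s` being the last nonzero change so far -/
def revAux : SignType → List SignType → ℕ
  | _, [] => 0
  | s, x :: l => if x = 0 then revAux s l else (if s = -x then 1 else 0) + revAux x l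

/-- total number of reversals of a computation -/
def Mach.revs (M : Mach A) (l : List M.Act) : ℕ := ∑ i, revAux 0 (l.map fun μ => μ.2.2 i)

def Mach.LR (M : Mach A) (c : ℕ) : Set (List A) :=
  {w | ∃ l q, q ∈ M.F ∧ M.Run (M.q0, w, 0) l (q, [], 0) ∧ M.revs l ≤ c}

def DCounter (A : Type) (c : ℕ) : Set (Set (List A)) :=
  {L | ∃ M : Mach A, M.QR ∧ M.Det ∧ M.LR c = L}

def DPBlind (A : Type) (c : ℕ) : Set (Set (List A)) :=
  {L | ∃ M : Mach A, M.Blind ∧ M.QR ∧ M.Det ∧ M.LR c = L}

/-- `a^n b^m` -/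
def wd (n m : ℕ) : List Bool := List.replicate n false ++ List.replicate m true

def L : Set (List Bool) := {w | ∃ n m, n ≤ m ∧ w = wd n m}

/-! ### general lemmas -/

def lastS (s : SignType) (l : List SignType) : SignType :=
  l.foldl (fun s x => if x = 0 then s else x) s

theorem revAux_append (l₁ l₂ : List SignType) : ∀ s,
    revAux s (l₁ ++ l₂) = revAux s l₁ + revAux (lastS s l₁) l₂ := by
  induction l₁ with
  | nil => intro s; simp [revAux, lastS]
  | cons x l ih =>
    intro s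
    by_cases h : x = 0
    · simp only [List.cons_append, revAux, h, if_true, ih, lastS, List.foldl_cons]
    · simp only [List.cons_append, revAux, h, if_false, ih, lastS, List.foldl_cons]
      omega

theorem Mach.Run.append {M : Mach A} {C C' C'' : M.Cfg} {l l' : List M.Act}
    (h : M.Run C l C') (h' : M.Run C' l' C'') : M.Run C (l ++ l') C'' := by
  induction h with
  | nil => exact h'
  | cons s _ ih => exact .cons s (ih h')

theorem Mach.Reach.run {M : Mach A} {C C' : M.Cfg} {l : List M.Act}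
    (h : M.Reach C) (h' : M.Run C l C') : M.Reach C' := by
  obtain ⟨w, l0, h⟩ := h
  exact ⟨w, _, h.append h'⟩

theorem Mach.Step.fn {M : Mach A} {C C₁ C₂ : M.Cfg} {μ : M.Act}
    (h : M.Step C μ C₁) (h' : M.Step C μ C₂) : C₁ = C₂ := by
  obtain ⟨-, a1, a2, a3⟩ := h
  obtain ⟨-, b1, b2, b3⟩ := h'
  refine Prod.ext (a1.trans b1.symm) (Prod.ext ?_ ?_)
  · split_ifs at a3 b3
    · obtain ⟨a, ha⟩ := a3
      obtain ⟨b, hb⟩ := b3
      rw [ha] at hb
      exact (List.cons.inj hb).2
    · exact a3.trans b3.symm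
  · funext i
    have := (a2 i).trans (b2 i).symm
    exact_mod_cast this

theorem det_prefix {M : Mach A} (hd : M.DetR) {C C₁ : M.Cfg} {l₁ : List M.Act}
    (h₁ : M.Run C l₁ C₁) : ∀ {C₂ : M.Cfg} {l₂ : List M.Act}, M.Reach C → M.Run C l₂ C₂ →
      (∃ l, M.Run C₁ l C₂) ∨ (∃ l, M.Run C₂ l C₁) := by
  induction h₁ with
  | nil => intro C₂ l₂ _ h; exact Or.inl ⟨_, h⟩
  | cons s r ih =>
    intro C₂ l₂ hr h
    cases h with
    | nil => exact Or.inr ⟨_, .cons s r⟩
    | cons s' r' =>
      have e := hd _ _ _ _ _ hr s s'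
      subst e
      have e := s.fn s'
      subst e
      exact ih (hr.run (.cons s (.nil _))) r'

theorem split {M : Mach A} {C C'' : M.Cfg} {l : List M.Act} (h : M.Run C l C'')
    (hC : C''.2.1 = []) : ∀ u w, C.2.1 = u ++ w → ∃ l₁ l₂ q v, l = l₁ ++ l₂ ∧
      (∀ w', M.Run (C.1, u ++ w', C.2.2) l₁ (q, w', v)) ∧ M.Run (q, w, v) l₂ C'' := by
  induction h with
  | nil C =>
    intro u w e
    rw [hC] at e
    have hu : u = [] := (List.append_eq_nil_iff.1 e.symm).1
    have hw : w = [] := (List.append_eq_nil_iff.1 e.symm).2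
    subst hu hw
    refine ⟨[], [], C.1, C.2.2, rfl, fun w' => .nil _, ?_⟩
    rw [← hC]; exact .nil _
  | @cons C C' C'' μ l s r ih =>
    intro u w e
    rcases u with _ | ⟨x, u⟩
    · refine ⟨[], μ :: l, C.1, C.2.2, rfl, fun w' => .nil _, ?_⟩
      have : w = C.2.1 := e.symm
      rw [this]; exact .cons s r
    · obtain ⟨a1, a2, a3, a4⟩ := s
      rw [e] at a1 a4
      by_cases hb : μ.2.1 = true
      · rw [if_pos hb] at a4
        obtain ⟨a, ha⟩ := a4
        obtain ⟨l₁, l₂, q, v, e1, e2, e3⟩ := ih hC u w (List.cons.inj ha).2.symm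
        refine ⟨μ :: l₁, l₂, q, v, by rw [e1]; rfl, fun w' => .cons ?_ (e2 w'), e3⟩
        exact ⟨a1, a2, a3, by rw [if_pos hb]; exact ⟨x, rfl⟩⟩
      · rw [if_neg hb] at a4
        obtain ⟨l₁, l₂, q, v, e1, e2, e3⟩ := ih hC (x :: u) w a4
        refine ⟨μ :: l₁, l₂, q, v, by rw [e1]; rfl, fun w' => .cons ?_ (e2 w'), e3⟩
        exact ⟨a1, a2, a3, by rw [if_neg hb]⟩

theorem mono {M : Mach A} (hb : M.Blind) {C C' : M.Cfg} {l : List M.Act} (h : M.Run C l C')
    (e : Fin M.k → ℕ) : M.Run (C.1, C.2.1, C.2.2 + e) l (C'.1, C'.2.1, C'.2.2 + e) := by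
  induction h with
  | nil => exact .nil _
  | cons s _ ih =>
    refine .cons ?_ ih
    obtain ⟨a1, a2, a3, a4⟩ := s
    refine ⟨by rw [hb _ _ _ _]; exact a1, a2, fun i => ?_, a4⟩
    simp only [Pi.add_apply]
    push_cast
    rw [a3 i]; ring

theorem sign_ge (s : SignType) : (-1 : ℤ) ≤ (s : ℤ) := by
  rcases s <;> simp

theorem at_end {M : Mach A} {C C' : M.Cfg} {l : List M.Act} (h : M.Run C l C') :
    (C.2.1 = [] → ∀ μ ∈ l, μ.2.1 = false) ∧ ∀ i, C.2.2 i ≤ C'.2.2 i + l.length := by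
  induction h with
  | nil => simp
  | @cons C C' C'' μ l s _ ih =>
    obtain ⟨a1, a2, a3, a4⟩ := s
    constructor
    · intro e
      have hb : ¬ μ.2.1 = true := fun hb => by
        rw [if_pos hb, e] at a4; simp at a4
      rw [if_neg hb, e] at a4
      intro ν hν
      rcases List.mem_cons.1 hν with rfl | hν
      · simpa using hb
      · exact ih.1 a4 ν hν
    · intro i
      have h1 := ih.2 i
      have h2 := a3 i
      have h3 := sign_ge (μ.2.2 i)
      simp only [List.length_cons]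
      omega

theorem run_len {M : Mach A} {C C' : M.Cfg} {l : List M.Act} (h : M.Run C l C') :
    C'.2.1.length ≤ C.2.1.length := by
  induction h with
  | nil => exact le_rfl
  | cons s _ ih =>
    obtain ⟨-, -, -, a4⟩ := s
    split_ifs at a4
    · obtain ⟨a, ha⟩ := a4
      rw [ha]; simp only [List.length_cons]; omega
    · rw [← a4]; exact ih

theorem wd_mem {n m : ℕ} : wd n m ∈ L ↔ n ≤ m := by
  constructor
  · rintro ⟨n', m', h, e⟩
    have h1 := congrArg (List.count false) e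
    have h2 := congrArg (List.count true) e
    simp [wd, List.count_replicate] at h1 h2
    omega
  · intro h; exact ⟨n, m, h, rfl⟩

/-! ### the lower bound -/

theorem lower (c : ℕ) (M : Mach Bool) (hb : M.Blind) (hq : M.QR) (hd : M.DetR) : M.LR c ≠ L := by
  intro hL
  have := M.finQ
  obtain ⟨d, hq⟩ := hq
  have h0 : ∀ n, ∃ l₁ l₂ q v f, f ∈ M.F ∧ M.revs (l₁ ++ l₂) ≤ c ∧
      (∀ w', M.Run (M.q0, List.replicate (n + 1) false ++ w', 0) l₁ (q, w', v)) ∧
      M.Run (q, List.replicate (n + 1) true, v) l₂ (f, [], 0) := by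
    intro n
    have : wd (n + 1) (n + 1) ∈ M.LR c := by rw [hL, wd_mem]
    obtain ⟨l, f, hf, hr, hc⟩ := this
    obtain ⟨l₁, l₂, q, v, e1, e2, e3⟩ := split hr rfl _ _ rfl
    exact ⟨l₁, l₂, q, v, f, hf, e1 ▸ hc, e2, e3⟩
  choose l₁ l₂ q v f hf hc h₁ h₂ using h0
  have hrev : ∀ a b : List M.Act, M.revs (a ++ b) =
      M.revs a + ∑ i, revAux (lastS 0 (a.map fun μ => μ.2.2 i)) (b.map fun μ => μ.2.2 i) := by
    intro a b
    simp only [Mach.revs, List.map_append, revAux_append, Finset.sum_add_distrib]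
  let T : ℕ → M.Q × (Fin M.k → SignType) × Fin (c + 1) := fun n =>
    (q n, fun i => lastS 0 ((l₁ n).map fun μ => μ.2.2 i),
      ⟨M.revs (l₁ n), by have := hc n; rw [hrev] at this; omega⟩)
  obtain ⟨g, hg⟩ := (Finite.wellQuasiOrdered (α := M.Q × (Fin M.k → SignType) × Fin (c + 1))
    (· = ·)).exists_monotone_subseq T
  obtain ⟨g', hg'⟩ := (wellQuasiOrdered_le (α := Fin M.k → ℕ)).exists_monotone_subseq
    (fun j => v (g j))
  set φ : ℕ → ℕ := fun j => g (g' j) with hφ
  have hφm : StrictMono φ := g.strictMono.comp g'.strictMono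
  have hT : ∀ i j, i ≤ j → T (φ i) = T (φ j) := fun i j h => hg _ _ (g'.monotone h)
  have hv : ∀ j, v (φ 0) ≤ v (φ j) := fun j => hg' 0 j (Nat.zero_le _)
  have hbd : ∀ j i, v (φ j) i ≤ v (φ 0) i + d := by
    intro j
    have hle : φ 0 ≤ φ j := hφm.monotone (Nat.zero_le _)
    have hq0 : q (φ 0) = q (φ j) := congrArg Prod.fst (hT 0 j (Nat.zero_le _))
    have : wd (φ 0 + 1) (φ j + 1) ∈ M.LR c := by rw [hL, wd_mem]; omega
    obtain ⟨l, f', -, hr, -⟩ := this
    have a1 := h₁ (φ 0) (List.replicate (φ j + 1) true)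
    have hex : ∃ l', M.Run (q (φ 0), List.replicate (φ j + 1) true, v (φ 0)) l' (f', [], 0) := by
      rcases det_prefix hd a1 ⟨_, _, .nil _⟩ hr with h | ⟨l', h⟩
      · exact h
      · have := run_len h
        simp at this
    obtain ⟨l', a2⟩ := hex
    obtain ⟨e, he⟩ : ∃ e, v (φ j) = v (φ 0) + e := ⟨v (φ j) - v (φ 0), by
      funext i
      have : v (φ 0) i ≤ v (φ j) i := hv j i
      simp only [Pi.add_apply, Pi.sub_apply]; omega⟩
    have a3 := mono hb a2 e
    simp only [zero_add] at a3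
    rw [← he, hq0] at a3
    have hre : M.Reach (q (φ j), List.replicate (φ j + 1) true, v (φ j)) := ⟨_, _, h₁ _ _⟩
    intro i
    rw [he, Pi.add_apply]
    rcases det_prefix hd a3 hre (h₂ (φ j)) with ⟨l3, h⟩ | ⟨l3, h⟩
    · have b1 := at_end h
      have b2 := hq _ _ _ (hre.run a3) h (b1.1 rfl)
      have b3 := b1.2 i
      simp only [Pi.zero_apply] at b3
      omega
    · have b1 := at_end h
      have b2 := hq _ _ _ (hre.run (h₂ (φ j))) h (b1.1 rfl)
      have b4 : ∀ {C C' : M.Cfg} {l : List M.Act}, M.Run C l C' →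
          C'.2.2 i ≤ C.2.2 i + l.length := by
        intro C C' l h
        induction h with
        | nil => simp
        | @cons C C' C'' μ l s _ ih =>
          have h2 := s.2.2.1 i
          have h3 : ((μ.2.2 i : SignType) : ℤ) ≤ 1 := by rcases μ.2.2 i <;> simp
          simp only [List.length_cons]
          omega
      have b3 := b4 h
      simp only [Pi.zero_apply] at b3
      omega
  obtain ⟨i, j, hij, he⟩ := (Set.finite_Iic (fun i => v (φ 0) i + d)).exists_lt_map_eq_of_forall_mem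
    (f := fun j => v (φ j)) (fun j => Set.mem_Iic.2 (fun i => hbd j i))
  have hTij := hT i j hij.le
  have e1 : q (φ i) = q (φ j) := congrArg Prod.fst hTij
  have e2 : ∀ t, lastS 0 ((l₁ (φ i)).map fun μ => μ.2.2 t) =
      lastS 0 ((l₁ (φ j)).map fun μ => μ.2.2 t) := fun t => congrFun (congrArg (·.2.1) hTij) t
  have e3 : M.revs (l₁ (φ i)) = M.revs (l₁ (φ j)) := congrArg (·.2.2.val) hTij
  have : wd (φ j + 1) (φ i + 1) ∈ M.LR c := by
    refine ⟨l₁ (φ j) ++ l₂ (φ i), f (φ i), hf _, (h₁ _ _).append ?_, ?_⟩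
    · rw [← e1, ← he]; exact h₂ _
    · have := hc (φ i)
      rw [hrev] at this ⊢
      simp only [← e2, ← e3]; exact this
  rw [hL, wd_mem] at this
  have := hφm hij
  omega

/-! ### the counter machine -/

def N : Mach Bool where
  Q := Bool
  finQ := inferInstance
  k := 1
  q0 := false
  F := Set.univ
  Δ := fun q s z => {μ | (q = false ∧ s = some false ∧ μ = (false, true, fun _ => 1)) ∨
    (s = some true ∧ μ = (true, true, fun i => if z i then 0 else -1))}

theorem N_B : ∀ (m v : ℕ) (q : Bool), v ≤ m → ∃ l f, N.Run (q, List.replicate m true, fun _ => v) l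
    (f, [], 0) ∧ ∀ s, revAux s (l.map fun μ => μ.2.2 (0 : Fin 1)) ≤ if s = 1 then 1 else 0 := by
  intro m
  induction m with
  | zero =>
    intro v q h
    obtain rfl : v = 0 := by omega
    exact ⟨[], q, .nil _, fun s => by simp [revAux]⟩
  | succ m ih =>
    intro v q h
    obtain ⟨l, f, h1, h2⟩ := ih (v - 1) true (by omega)
    refine ⟨(true, true, fun i => if decide (v = 0) then 0 else -1) :: l, f, .cons ?_ h1, ?_⟩
    · refine ⟨Or.inr ⟨rfl, rfl⟩, rfl, fun i => ?_, by simp [List.replicate_succ]⟩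
      by_cases hv : v = 0
      · simp [hv]
      · simp [hv]; omega
    · intro s
      by_cases hv : v = 0
      · simpa [revAux, hv] using h2 s
      · have := h2 (-1)
        simp [revAux, hv] at this ⊢
        omega

theorem N_A : ∀ (n m v : ℕ), v + n ≤ m → ∃ l f, N.Run (false, wd n m, fun _ => v) l
    (f, [], 0) ∧ ∀ s, s ≠ -1 → revAux s (l.map fun μ => μ.2.2 (0 : Fin 1)) ≤ 1 := by
  intro n
  induction n with
  | zero =>
    intro m v h
    obtain ⟨l, f, h1, h2⟩ := N_B m v false (by omega)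
    refine ⟨l, f, h1, fun s _ => (h2 s).trans ?_⟩
    split_ifs <;> omega
  | succ n ih =>
    intro m v h
    obtain ⟨l, f, h1, h2⟩ := ih m (v + 1) (by omega)
    refine ⟨(false, true, fun _ => 1) :: l, f, .cons ?_ h1, ?_⟩
    · exact ⟨Or.inl ⟨rfl, rfl, rfl⟩, rfl, fun i => by simp, by simp [wd, List.replicate_succ]⟩
    · intro s hs
      have := h2 1 (by decide)
      simpa [revAux, hs] using this

theorem N_sound {C C' : N.Cfg} {l : List N.Act} (h : N.Run C l C') (h1 : C'.2.1 = [])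
    (h2 : C'.2.2 = 0) : ∃ n m, C.2.1 = wd n m ∧ C.2.2 (0 : Fin 1) + n ≤ m ∧
      (C.1 = true → n = 0) := by
  induction h with
  | nil => exact ⟨0, 0, h1, by rw [h2]; rfl, fun _ => rfl⟩
  | @cons C C' C'' μ l s _ ih =>
    obtain ⟨n, m, b1, b2, b3⟩ := ih h1 h2
    obtain ⟨a1, a2, a3, a4⟩ := s
    have a5 := a3 (0 : Fin 1)
    rcases a1 with ⟨c1, c2, rfl⟩ | ⟨c2, rfl⟩
    · simp only [if_true] at a4
      obtain ⟨a, ha⟩ := a4
      rw [ha] at c2
      obtain rfl : a = false := by simpa using c2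
      refine ⟨n + 1, m, by rw [ha, b1]; simp [wd, List.replicate_succ], ?_, fun e => ?_⟩
      · simp at a5; omega
      · rw [c1] at e; exact absurd e Bool.false_ne_true
    · simp only [if_true] at a4
      obtain ⟨a, ha⟩ := a4
      rw [ha] at c2
      obtain rfl : a = true := by simpa using c2
      obtain rfl := b3 a2
      refine ⟨0, m + 1, by rw [ha, b1]; simp [wd, List.replicate_succ], ?_, fun _ => rfl⟩
      have := sign_ge (if decide (C.2.2 (0 : Fin 1) = 0) then 0 else -1)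
      simp only at a5
      omega

theorem N_adv {C C' : N.Cfg} {μ : N.Act} (s : N.Step C μ C') : μ.2.1 = true := by
  rcases s.1 with ⟨-, -, rfl⟩ | ⟨-, rfl⟩ <;> rfl

theorem upper (c : ℕ) (hc : 1 ≤ c) : L ∈ DCounter Bool c := by
  refine ⟨N, ⟨0, fun C l C' _ h hl => ?_⟩, fun C μ μ' C₁ C₂ s s' => ?_, ?_⟩
  · cases h with
    | nil => simp
    | cons s _ =>
      have := hl _ List.mem_cons_self
      rw [N_adv s] at this
      exact absurd this (by decide)
  · rcases s.1 with ⟨-, a, rfl⟩ | ⟨a, rfl⟩ <;> rcases s'.1 with ⟨-, b, rfl⟩ | ⟨b, rfl⟩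
    · rfl
    · rw [a] at b; exact absurd b (by decide)
    · rw [a] at b; exact absurd b (by decide)
    · rfl
  · ext w
    constructor
    · rintro ⟨l, f, -, h, -⟩
      obtain ⟨n, m, b1, b2, -⟩ := N_sound h rfl rfl
      exact ⟨n, m, by omega, b1⟩
    · rintro ⟨n, m, h, rfl⟩
      obtain ⟨l, f, h1, h2⟩ := N_A n m 0 (by omega)
      refine ⟨l, f, trivial, h1, ?_⟩
      have := h2 0 (by decide)
      show ∑ i : Fin 1, _ ≤ c
      rw [Fin.sum_univ_one]
      exact this.trans hc

theorem result :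
    (∀ c : ℕ, 1 ≤ c → L ∈ DCounter Bool c) ∧
    (∀ (c : ℕ) (M : Mach Bool), M.Blind → M.QR → M.DetR → M.LR c ≠ L) ∧
    ∀ c : ℕ, 1 ≤ c → DPBlind Bool c ≠ DCounter Bool c := by
  refine ⟨upper, lower, fun c hc e => ?_⟩
  have := upper c hc
  rw [← e] at this
  obtain ⟨M, h1, h2, h3, h4⟩ := this
  exact lower c M h1 h2 (fun C μ μ' C₁ C₂ _ => h3 C μ μ' C₁ C₂) h4

end Pool.Agent.Results.MP_24384b_lc.Differ
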